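import Pool.Agent.helper82.SW.SpecW

/-!
# Module PMO of project sp (stage W): portmanteau for open sets
-/

namespace Pool.Agent.helper82.SW

open MeasureTheory Filter Topology TopologicalSpace
open scoped BoundedContinuousFunction

theorem PMO : PMO_stmt := by
  classical
  intro X _ _ _ μ _ ι _ w p hw hlim O t hO hfr
  have hC : IsClosed Oᶜ := hO.isClosed_compl
  -- the approximating functions
  let h : ℕ → X →ᵇ ℝ := fun k => BoundedContinuousFunction.comp (fun r : NNReal => (r : ℝ))
    (C := 1) (by
      rw [lipschitzWith_iff_dist_le_mul]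
      intro a b
      rw [NNReal.dist_eq]
      simp [Real.dist_eq]) (hC.apprSeq k)
  have hh : ∀ k x, h k x = (hC.apprSeq k x : ℝ) := fun _ _ => rfl
  have hh0 : ∀ k x, 0 ≤ h k x := fun k x => by rw [hh]; exact NNReal.coe_nonneg _
  have hh1 : ∀ k x, h k x ≤ 1 := fun k x => by
    rw [hh]
    exact_mod_cast HasOuterApproxClosed.apprSeq_apply_le_one hC k x
  have hhC : ∀ k x, x ∈ Oᶜ → h k x = 1 := fun k x hx => by
    rw [hh, HasOuterApproxClosed.apprSeq_apply_eq_one hC k hx]
    rfl
  -- integrals
  have hI : ∀ k, ∫ x, h k x ∂μ = (∫⁻ x, hC.apprSeq k x ∂μ).toReal := by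
    intro k
    rw [integral_eq_lintegral_of_nonneg_ae (Eventually.of_forall (hh0 k))
      (h k).continuous.aestronglyMeasurable]
    congr 1
    refine lintegral_congr fun x => ?_
    rw [hh, ENNReal.ofReal_coe_nnreal]
  have hlim2 : Tendsto (fun k => ∫ x, h k x ∂μ) atTop (𝓝 (μ.real Oᶜ)) := by
    simp only [hI]
    have := HasOuterApproxClosed.tendsto_lintegral_apprSeq hC μ
    exact (ENNReal.tendsto_toReal (measure_ne_top μ _)).comp this
  -- each approximation
  have hk : ∀ k, 1 - ∫ x, h k x ∂μ ≤ t := by
    intro k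
    have h1 := hlim (BoundedContinuousFunction.const X 1 - h k)
    have h2 : ∫ x, (BoundedContinuousFunction.const X (1 : ℝ) - h k) x ∂μ =
        1 - ∫ x, h k x ∂μ := by
      simp only [BoundedContinuousFunction.coe_sub, Pi.sub_apply,
        BoundedContinuousFunction.const_apply]
      rw [integral_sub (integrable_const _) ((h k).integrable μ)]
      simp
    rw [h2] at h1
    by_contra hlt
    push Not at hlt
    refine hfr ((h1.eventually_const_lt hlt).mono fun n hn hle => ?_)
    refine absurd (hn.trans_le ?_) (not_lt.2 hle)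
    refine Finset.sum_le_sum fun i _ => ?_
    simp only [BoundedContinuousFunction.coe_sub, Pi.sub_apply,
      BoundedContinuousFunction.const_apply]
    split_ifs with hi
    · exact mul_le_of_le_one_right (hw n i) (by linarith [hh0 k (p n i)])
    · rw [hhC k (p n i) hi]
      simp
  have h3 : 1 - μ.real Oᶜ ≤ t :=
    le_of_tendsto (hlim2.const_sub 1) (Eventually.of_forall hk)
  rw [probReal_compl_eq_one_sub hO.measurableSet] at h3
  linarith

end Pool.Agent.helper82.SW
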